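import Mathlib
import Pool.Agent.R34.FH.Lower2

/-!
The order of magnitude of `f(H)` for a `d`-regular graph `H₀` on `t` vertices with `s` dominant
vertices added: `t √(log d) + √(s t log s)`.

The upper bound holds for every graph `H₀` with all degrees at most `d`, and the lower bound
`√(s t log s)` for every graph `H₀` on `t` vertices. Hence `f(H)` has order `√(s t log s)` if
`s log s ≥ t log d`, and it is at most a constant times `t √(log d)`, the known lower bound, if
`s log s ≤ t log d`. The lower bound `t √(log d)` is the known bound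
`f(H) ≥ f(H₀) ≥ c t √(log d)`; it enters as an explicit hypothesis in the fifth part, and it is
proved in the range `d ≥ (log t) ^ 2` in the sixth part.
-/

set_option autoImplicit false

namespace Pool.Agent.Results.MP_cf34f5_co.DominantOrder

open SimpleGraph
open Pool.Agent.R34.FH Pool.Agent.TH507.Host

lemma forces_pos {W : Type} [Nontrivial W] {H : SimpleGraph W} {c : ℝ} (hc : Forces H c) :
    0 < c := by
  by_contra hcon
  push Not at hcon
  have h1 : avgDeg (⊥ : SimpleGraph (Fin 1)) = 0 := by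
    simp [avgDeg]
  obtain ⟨B, hB1, hB2, -⟩ := hc (Fin 1) ⊥ (by rw [h1]; exact hcon)
  obtain ⟨x, y, hxy⟩ := exists_pair_ne W
  obtain ⟨u⟩ := (hB1 x).nonempty
  obtain ⟨v⟩ := (hB1 y).nonempty
  have h2 : u.1 = v.1 := Subsingleton.elim _ _
  exact Set.disjoint_left.1 (hB2 x y hxy) u.2 (h2 ▸ v.2)

theorem result :
    -- the upper bound, for all degrees at most `d`
    (∀ (d s t : ℕ), 2 ≤ d → 2 ≤ s → s ≤ t → ∀ H₀ : SimpleGraph (Fin t),
      (∀ x, (H₀.neighborSet x).ncard ≤ d) →
      threshold (addDominant H₀ s) ≤ 18000 * (t * √(Real.log d) + √(s * t * Real.log s))) ∧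
    -- the lower bound, for every graph
    (∀ (s t : ℕ), 2 ≤ s → s ≤ t → 1024 ≤ t → ∀ H₀ : SimpleGraph (Fin t),
      1 / 16 * √(s * t * Real.log s) ≤ threshold (addDominant H₀ s)) ∧
    -- the order of magnitude for every `H₀`, if `t log d ≤ s log s`
    (∀ (d s t : ℕ), 2 ≤ d → 2 ≤ s → s ≤ t → 1024 ≤ t → t * Real.log d ≤ s * Real.log s →
      ∀ H₀ : SimpleGraph (Fin t), (∀ x, (H₀.neighborSet x).ncard ≤ d) →
      1 / 16 * √(s * t * Real.log s) ≤ threshold (addDominant H₀ s) ∧
        threshold (addDominant H₀ s) ≤ 36000 * √(s * t * Real.log s)) ∧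
    -- the upper bound for every `H₀`, if `s log s ≤ t log d`
    (∀ (d s t : ℕ), 2 ≤ d → 2 ≤ s → s ≤ t → s * Real.log s ≤ t * Real.log d →
      ∀ H₀ : SimpleGraph (Fin t), (∀ x, (H₀.neighborSet x).ncard ≤ d) →
        threshold (addDominant H₀ s) ≤ 36000 * (t * √(Real.log d))) ∧
    -- the order of magnitude, if `H₀` satisfies the known lower bound with the constant `c₀`
    (∀ (c₀ : ℝ) (d s t : ℕ), 0 < c₀ → 2 ≤ d → 2 ≤ s → s ≤ t → 1024 ≤ t →
      ∀ H₀ : SimpleGraph (Fin t), Regular H₀ d → c₀ * (t * √(Real.log d)) ≤ threshold H₀ →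
      min c₀ (1 / 16) / 2 * (t * √(Real.log d) + √(s * t * Real.log s)) ≤
          threshold (addDominant H₀ s) ∧
        threshold (addDominant H₀ s) ≤
          18000 * (t * √(Real.log d) + √(s * t * Real.log s))) ∧
    -- the order of magnitude for all regular graphs with `d ≥ (log t) ^ 2`
    (∀ (d s t : ℕ), 2 ≤ s → s ≤ t → 1024 ≤ t → (Real.log t) ^ 2 ≤ d →
      ∀ H₀ : SimpleGraph (Fin t), Regular H₀ d →
      1 / 128 * (t * √(Real.log d) + √(s * t * Real.log s)) ≤ threshold (addDominant H₀ s) ∧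
        threshold (addDominant H₀ s) ≤
          18000 * (t * √(Real.log d) + √(s * t * Real.log s))) := by
  have bdd : ∀ {W : Type} [Nontrivial W] (H : SimpleGraph W), BddBelow {c | Forces H c} :=
    fun H => ⟨0, fun c hc => (forces_pos hc).le⟩
  have nt : ∀ {s t : ℕ}, 2 ≤ s → Nontrivial (Fin s ⊕ Fin t) := by
    intro s t hs
    refine ⟨Sum.inl ⟨0, by omega⟩, Sum.inl ⟨1, by omega⟩, ?_⟩
    simp
  have up : ∀ (d s t : ℕ), 2 ≤ d → 2 ≤ s → s ≤ t → ∀ H₀ : SimpleGraph (Fin t),
      (∀ x, (H₀.neighborSet x).ncard ≤ d) →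
      threshold (addDominant H₀ s) ≤ 18000 * (t * √(Real.log d) + √(s * t * Real.log s)) := by
    intro d s t hd hs hst H₀ hH
    have := nt (t := t) hs
    exact csInf_le (bdd _) (upper hd hs hst H₀ hH)
  have ne : ∀ (s t : ℕ), 2 ≤ s → s ≤ t → ∀ H₀ : SimpleGraph (Fin t),
      {c | Forces (addDominant H₀ s) c}.Nonempty := by
    intro s t hs hst H₀
    refine ⟨_, upper (d := t) (by omega) hs hst H₀ (fun x => ?_)⟩
    have := Set.ncard_le_ncard (Set.subset_univ (H₀.neighborSet x)) Set.finite_univ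
    rwa [Set.ncard_univ, Nat.card_fin] at this
  have low : ∀ (s t : ℕ), 2 ≤ s → s ≤ t → 1024 ≤ t → ∀ H₀ : SimpleGraph (Fin t),
      1 / 16 * √(s * t * Real.log s) ≤ threshold (addDominant H₀ s) := by
    intro s t hs hst ht H₀
    exact le_csInf (ne s t hs hst H₀) (fun c hc => lower_bip hs hst ht H₀ hc)
  have mono : ∀ (s t : ℕ), 2 ≤ s → s ≤ t → ∀ H₀ : SimpleGraph (Fin t),
      threshold H₀ ≤ threshold (addDominant H₀ s) := by
    intro s t hs hst H₀
    have : Nontrivial (Fin t) := Fin.nontrivial_iff_two_le.2 (by omega)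
    exact csInf_le_csInf (bdd _) (ne s t hs hst H₀) (fun c hc => forces_sub H₀ hc)
  have both : ∀ (c₀ : ℝ) (d s t : ℕ), 0 < c₀ → 2 ≤ d → 2 ≤ s → s ≤ t → 1024 ≤ t →
      ∀ H₀ : SimpleGraph (Fin t), Regular H₀ d →
      c₀ * (t * √(Real.log d)) ≤ threshold (addDominant H₀ s) →
      min c₀ (1 / 16) / 2 * (t * √(Real.log d) + √(s * t * Real.log s)) ≤
          threshold (addDominant H₀ s) ∧
        threshold (addDominant H₀ s) ≤
          18000 * (t * √(Real.log d) + √(s * t * Real.log s)) := by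
    intro c₀ d s t hc₀ hd hs hst ht H₀ hreg hlow
    refine ⟨?_, up d s t hd hs hst H₀ (fun x => (hreg x).le)⟩
    have h1 := low s t hs hst ht H₀
    have h2 : min c₀ (1 / 16) * (t * √(Real.log d)) ≤ c₀ * (t * √(Real.log d)) :=
      mul_le_mul_of_nonneg_right (min_le_left _ _) (by positivity)
    have h3 : min c₀ (1 / 16) * √(s * t * Real.log s) ≤ 1 / 16 * √(s * t * Real.log s) :=
      mul_le_mul_of_nonneg_right (min_le_right _ _) (by positivity)
    linarith
  have eqt : ∀ (d t : ℕ), (t : ℝ) * √(Real.log d) = √(t * (t * Real.log d)) := by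
    intro d t
    rw [show (t : ℝ) * (t * Real.log d) = t ^ 2 * Real.log d by ring,
      Real.sqrt_mul (by positivity), Real.sqrt_sq (by positivity)]
  refine ⟨up, low, ?_, ?_, ?_, ?_⟩
  · intro d s t hd hs hst ht hlog H₀ hH
    refine ⟨low s t hs hst ht H₀, ?_⟩
    have h1 := up d s t hd hs hst H₀ hH
    have h2 : (t : ℝ) * √(Real.log d) ≤ √(s * t * Real.log s) := by
      rw [eqt]
      apply Real.sqrt_le_sqrt
      calc (t : ℝ) * (t * Real.log d) ≤ t * (s * Real.log s) := by gcongr
        _ = _ := by ring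
    linarith
  · intro d s t hd hs hst hlog H₀ hH
    have h1 := up d s t hd hs hst H₀ hH
    have h2 : √(s * t * Real.log s) ≤ (t : ℝ) * √(Real.log d) := by
      rw [eqt]
      apply Real.sqrt_le_sqrt
      calc (s : ℝ) * t * Real.log s = t * (s * Real.log s) := by ring
        _ ≤ _ := by gcongr
    linarith
  · intro c₀ d s t hc₀ hd hs hst ht H₀ hreg hlow
    exact both c₀ d s t hc₀ hd hs hst ht H₀ hreg (hlow.trans (mono s t hs hst H₀))
  · intro d s t hs hst ht hdt H₀ hreg
    have hd : 2 ≤ d := by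
      have h1 : Real.log 1024 ≤ Real.log t := Real.log_le_log (by norm_num) (by exact_mod_cast ht)
      have h2 : Real.log 1024 = 10 * Real.log 2 := by
        rw [show (1024 : ℝ) = 2 ^ 10 by norm_num, Real.log_pow]
        norm_num
      have h3 := Real.log_two_gt_d9
      have h4 : (2 : ℝ) ≤ d := by nlinarith
      exact_mod_cast h4
    have h1 : 1 / 64 * (t * √(Real.log d)) ≤ threshold (addDominant H₀ s) := by
      refine le_csInf (ne s t hs hst H₀) (fun c hc => ?_)
      exact lower_reg hd ht hdt H₀ hreg (forces_sub H₀ hc)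
    have h2 := both (1 / 64) d s t (by norm_num) hd hs hst ht H₀ hreg h1
    rw [min_eq_left (by norm_num)] at h2
    refine ⟨?_, h2.2⟩
    linarith [h2.1]

end Pool.Agent.Results.MP_cf34f5_co.DominantOrder
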